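import Mathlib
import Pool.Agent.N769.TR.Clamped
import Pool.Agent.N167.SG.Stm

/-!
# SG/1: the clamped Galerkin system without sign condition (for helper167; adapted from
`N769/TR/Clamped.lean`)
-/

set_option autoImplicit false

namespace Pool.Agent.N457.SG

open Set Pool.Agent.N167.TR Pool.Agent.N167.SG Pool.Agent.N769.TR
open scoped NNReal

theorem abs_clamp2_le {A : ℝ} (hA : 0 ≤ A) (x : ℝ) : |clamp2 A x| ≤ A :=
  abs_le.2 ⟨le_max_left _ _, max_le (by linarith) (min_le_right _ _)⟩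

theorem abs_clamp2_sub (A x y : ℝ) : |clamp2 A x - clamp2 A y| ≤ |x - y| := by
  unfold clamp2
  have h1 := abs_max_sub_max_le_max (-A) (min x A) (-A) (min y A)
  have h2 := abs_min_sub_min_le_max x A y A
  simp only [sub_self, abs_zero] at h1 h2
  rw [max_eq_right (abs_nonneg (min x A - min y A))] at h1
  rw [max_eq_left (abs_nonneg (x - y))] at h2
  exact h1.trans h2

theorem t_clamped2 : S_clamped2 := by
  intro M B D ν f x A N T hT hA hf
  set c : (Nd M N → ℝ) → List (Fin M) → ℝ := fun w m => clamp2 A (Pool.Agent.N769.TR.ext N w m) with hc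
  set v : ℝ → (Nd M N → ℝ) → Nd M N → ℝ :=
    fun t w i => rhs B D ν (fun m => f m t) (c w) i with hv
  have hcA : ∀ w m, |c w m| ≤ A := fun w m => abs_clamp2_le hA _
  have hcd : ∀ w w' m, |c w m - c w' m| ≤ dist w w' := fun w w' m =>
    (abs_clamp2_sub _ _ _).trans (abs_ext_sub N w w' m)
  -- constants
  have hK0 : 0 ≤ ∑ i : Nd M N, Kn B D ν A i.1 :=
    Finset.sum_nonneg fun i _ => Kn_nonneg B D ν hA i.1
  have hKi : ∀ i : Nd M N, Kn B D ν A i.1 ≤ ∑ i : Nd M N, Kn B D ν A i.1 := fun i =>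
    Finset.single_le_sum (f := fun i : Nd M N => Kn B D ν A i.1)
      (fun i _ => Kn_nonneg B D ν hA i.1) (Finset.mem_univ i)
  have hM : ∀ n, ∃ M : ℝ, 0 ≤ M ∧ ∀ t ∈ Icc (0 : ℝ) T, |f n t| ≤ M := by
    intro n
    obtain ⟨M, hM⟩ := isCompact_Icc.exists_bound_of_continuousOn (hf n)
    exact ⟨max M 0, le_max_right _ _, fun t ht => (hM t ht).trans (le_max_left _ _)⟩
  choose m hM0 hM using hM
  set L : ℝ := ∑ i : Nd M N, (m i.1 + Bn B D ν A i.1) with hL
  have hL0 : 0 ≤ L := Finset.sum_nonneg fun i _ => add_nonneg (hM0 i) (Bn_nonneg B D ν hA i.1)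
  have hLi : ∀ i : Nd M N, m i.1 + Bn B D ν A i.1 ≤ L := fun i =>
    Finset.single_le_sum (f := fun i : Nd M N => m i.1 + Bn B D ν A i.1)
      (fun i _ => add_nonneg (hM0 i) (Bn_nonneg B D ν hA i.1)) (Finset.mem_univ i)
  have h0 : (0 : ℝ) ∈ Icc (0 : ℝ) T := ⟨le_rfl, hT.le⟩
  set x0 : Nd M N → ℝ := fun i => x i.1 with hx0
  have hPL : IsPicardLindelof v (⟨0, h0⟩ : Icc (0 : ℝ) T) x0 (⟨L, hL0⟩ * ⟨T, hT.le⟩) 0 ⟨L, hL0⟩
      ⟨_, hK0⟩ := by
    refine ⟨?_, ?_, ?_, ?_⟩
    · intro t _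
      apply LipschitzWith.lipschitzOnWith
      apply LipschitzWith.of_dist_le_mul
      intro w w'
      rw [dist_pi_le_iff (by positivity)]
      intro i
      rw [Real.dist_eq]
      have := rhs_sub_le (B := B) (D := D) (ν := ν) (g := fun m => f m t) hA (hcA w) (hcA w')
        dist_nonneg (hcd w w') i.1
      refine this.trans ?_
      exact mul_le_mul_of_nonneg_right (hKi i) dist_nonneg
    · intro w _
      rw [continuousOn_pi]
      intro i
      simp only [hv, rhs]
      have := hf i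
      fun_prop
    · intro t ht w _
      change ‖v t w‖ ≤ L
      rw [pi_norm_le_iff_of_nonneg hL0]
      intro i
      rw [Real.norm_eq_abs]
      have := rhs_le (B := B) (D := D) (ν := ν) (g := fun m => f m t) hA (hcA w) i.1
      refine this.trans ((add_le_add (hM i t ht) le_rfl).trans (hLi i))
    · push_cast
      change L * max (T - 0) (0 - 0) ≤ L * T - 0
      rw [sub_zero, sub_zero, max_eq_left hT.le, sub_zero]
  obtain ⟨α, hα0, hα⟩ := hPL.exists_eq_forall_mem_Icc_hasDerivWithinAt₀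
  refine ⟨fun n t => Pool.Agent.N769.TR.ext N (α t) n, ?_, ?_, ?_⟩
  · intro n hn t
    change Pool.Agent.N769.TR.ext N (α t) n = 0
    unfold Pool.Agent.N769.TR.ext
    rw [dif_neg (by omega)]
  · intro n hn
    have : α 0 = x0 := hα0
    simp only [this, Pool.Agent.N769.TR.ext, dif_pos hn, hx0]
  · intro n hn t ht
    have h1 := hasDerivWithinAt_pi.1 (hα t ht) ⟨n, hn⟩
    have e : (fun t => Pool.Agent.N769.TR.ext N (α t) n) = fun t => α t ⟨n, hn⟩ := by
      funext t
      unfold Pool.Agent.N769.TR.ext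
      rw [dif_pos hn]
    change HasDerivWithinAt (fun t => Pool.Agent.N769.TR.ext N (α t) n)
      (rhs B D ν (fun m => f m t) (fun m => clamp2 A (Pool.Agent.N769.TR.ext N (α t) m)) n) (Icc 0 T) t
    rw [e]
    exact h1

end Pool.Agent.N457.SG
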